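import Pool.Agent.W313.HB.Stm3
import Pool.Agent.W959.HB2.CoreA

/-! Project HB part 3 (helper313): COREA2, the theorem for one variable and two parameters from its
analytic part. -/

set_option autoImplicit false

namespace Pool.Agent.W681.HB

open Finset Polynomial Pool.Agent.W313.HB
open Pool.Agent.W313.BMX (Splits)
open Pool.Agent.W959.HB2 (spl_left spl_right sq_of_jac)

/-- the local conditions at one point -/
theorem glob (h2 : S_HM) (h3 : S_PF) (P1 P2 P3 : ℤ[X]) (N a b ps : ℕ) (t : ℤ) (h2N : 2 ∣ N)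
    (ha : 0 < a) (hb : 0 < b) (hps : ps.Prime) (hc : Cond2 P1 P2 P3 N a b ps t)
    (hloc : ∀ (p : ℕ) [Fact p.Prime], p ∣ N → (P1 * P2 * P3).eval t ≠ 0 →
        Splits ((((a : ℤ) * (P1 * P3).eval t : ℤ)) : ℚ_[p])
          ((((b : ℤ) * (P2 * P3).eval t : ℤ)) : ℚ_[p])) :
    (P1 * P2 * P3).eval t ≠ 0 ∧ Splits ((((a : ℤ) * (P1 * P3).eval t : ℤ)) : ℚ)
          ((((b : ℤ) * (P2 * P3).eval t : ℤ)) : ℚ) := by
  obtain ⟨c1, c2, c3, c4, c5, c6, c7, c8, c9⟩ := hc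
  simp only [eval_mul] at hloc ⊢
  have hne : P1.eval t * P2.eval t * P3.eval t ≠ 0 := mul_ne_zero (mul_ne_zero c1 c2) c3
  refine ⟨hne, ?_⟩
  have hapos : (0 : ℤ) < a := by exact_mod_cast ha
  have hbpos : (0 : ℤ) < b := by exact_mod_cast hb
  have hα : (a : ℤ) * (P1.eval t * P3.eval t) ≠ 0 := mul_ne_zero hapos.ne' (mul_ne_zero c1 c3)
  have hβ : (b : ℤ) * (P2.eval t * P3.eval t) ≠ 0 := mul_ne_zero hbpos.ne' (mul_ne_zero c2 c3)
  have hR : Splits ((((a : ℤ) * (P1.eval t * P3.eval t) : ℤ)) : ℝ)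
      ((((b : ℤ) * (P2.eval t * P3.eval t) : ℤ)) : ℝ) := by
    rcases c4 with h | h
    · refine spl_left ?_
      have h4 : (0 : ℝ) ≤ (((a : ℤ) * (P1.eval t * P3.eval t) : ℤ) : ℝ) := by
        exact_mod_cast (mul_pos hapos h).le
      exact ⟨√_, (Real.mul_self_sqrt h4).symm⟩
    · refine spl_right ?_
      have h4 : (0 : ℝ) ≤ (((b : ℤ) * (P2.eval t * P3.eval t) : ℤ) : ℝ) := by
        exact_mod_cast (mul_pos hbpos h).le
      exact ⟨√_, (Real.mul_self_sqrt h4).symm⟩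
  have hp : ∀ (p : ℕ) [Fact p.Prime], p ≠ ps →
      Splits ((((a : ℤ) * (P1.eval t * P3.eval t) : ℤ)) : ℚ_[p])
        ((((b : ℤ) * (P2.eval t * P3.eval t) : ℤ)) : ℚ_[p]) := by
    intro p hpf hpps
    by_cases hpN' : p ∣ N
    · exact hloc p hpN' hne
    have hp2 : p ≠ 2 := fun h => hpN' (h ▸ h2N)
    by_cases hpa : p ∣ a
    · exact spl_right (sq_of_jac p hp2 _ (c5 p hpf.out hpN' hpa hpps))
    by_cases hpb : p ∣ b
    · exact spl_left (sq_of_jac p hp2 _ (c6 p hpf.out hpN' hpb hpps))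
    by_cases hq1 : (p : ℤ) ∣ P1.eval t
    · exact spl_right (sq_of_jac p hp2 _ (c7 p hpf.out hpN' hpa hpb hq1))
    by_cases hq2 : (p : ℤ) ∣ P2.eval t
    · exact spl_left (sq_of_jac p hp2 _ (c8 p hpf.out hpN' hpa hpb hq2))
    by_cases hq3 : (p : ℤ) ∣ P3.eval t
    · obtain ⟨s, hs⟩ := sq_of_jac p hp2 _ (c9 p hpf.out hpN' hpa hpb hq3)
      refine ⟨s * ((P3.eval t : ℤ) : ℚ_[p]), (((a : ℤ) * (P1.eval t * P3.eval t) : ℤ) : ℚ_[p]), 0,
        Or.inr (Or.inl ?_), ?_⟩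
      · exact_mod_cast hα
      · push_cast at hs ⊢
        linear_combination ((a : ℚ_[p]) * ((P1.eval t : ℤ) : ℚ_[p]) *
          ((P3.eval t : ℤ) : ℚ_[p]) ^ 3) * hs
    · have hpa' : ¬ (p : ℤ) ∣ (a : ℤ) := fun h => hpa (by exact_mod_cast h)
      have hpb' : ¬ (p : ℤ) ∣ (b : ℤ) := fun h => hpb (by exact_mod_cast h)
      exact Pool.Agent.W335.BMX.odd2 p hp2 _ _
        (fun h => (Int.Prime.dvd_mul' hpf.out h).elim hpa'
          (fun h' => (Int.Prime.dvd_mul' hpf.out h').elim hq1 hq3))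
        (fun h => (Int.Prime.dvd_mul' hpf.out h).elim hpb'
          (fun h' => (Int.Prime.dvd_mul' hpf.out h').elim hq2 hq3))
  refine h2 _ _ hα hβ hR fun p hpf => ?_
  by_cases h : p = ps
  · subst h
    exact h3 _ _ hα hβ p hR hp
  · exact hp p h

open Classical in
theorem core2_ (h1 : S_ANA2) (h2 : S_HM) (h3 : S_PF) : S_CORE2 := by
  intro P1 P2 P3 hG hd hl
  obtain ⟨z0, hz0⟩ := h1 P1 P2 P3 hG hd hl
  refine ⟨max 2 z0, fun N hN hpN T0 ε hε => ?_⟩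
  obtain ⟨A0, hA0⟩ := hz0 N hN (fun p hp hpz => hpN p hp (hpz.trans (le_max_right _ _))) T0 ε hε
  refine ⟨A0, fun A hA => le_trans ?_ (hA0 A hA)⟩
  have h2N : 2 ∣ N := hpN 2 Nat.prime_two (le_max_left _ _)
  norm_cast
  refine card_le_card fun x hx => ?_
  rw [mem_filter] at hx ⊢
  obtain ⟨hxI, hsq1, hsq2, hcop, t0, hloc, hno⟩ := hx
  refine ⟨hxI, hsq1, hsq2, hcop, t0, ?_⟩
  rintro ⟨ps, t, hps, hpsN, hNt, hT, hc⟩
  apply hno
  rw [mem_product, mem_Icc, mem_Icc] at hxI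
  obtain ⟨e1, e2⟩ := glob h2 h3 P1 P2 P3 N x.1 x.2 ps t h2N (by omega) (by omega) hps hc
    (fun p _ hpN' hne => hloc p hpN' t hNt hne)
  exact ⟨t, hNt, hT, e1, e2⟩

end Pool.Agent.W681.HB
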