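import Mathlib
import Pool.Agent.W313.HB.Stm5
import Pool.Agent.W236.HB.Ratio1

/-!
# HB-RATIOG: the theorem for non diagonal forms as a limit of proportions
-/

set_option autoImplicit false
set_option linter.all false

namespace Pool.Agent.W681.HB

open Finset Polynomial
open Pool.Agent.W313.BMX (Splits)
open Pool.Agent.W313.HB
open Pool.Agent.W236.HB (sqf_part aeval_cast)

theorem aevalD {n : ℕ} {K : Type} [Field K] (A B D : MvPolynomial (Fin (n + 1)) ℤ)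
    (x : Fin (n + 1) → K) :
    MvPolynomial.aeval x (B ^ 2 - 4 * A * D) = (MvPolynomial.aeval x B) ^ 2 -
      4 * MvPolynomial.aeval x A * MvPolynomial.aeval x D := by
  simp only [map_sub, map_mul, map_pow, map_ofNat]

/-- from the diagonal form to a point -/
theorem ptw_of {n : ℕ} {K : Type} [Field K] [CharZero K] (A B D : MvPolynomial (Fin (n + 1)) ℤ)
    (a : ℤ) (ha : a ≠ 0) (Ω : Set (Fin (n + 1) → K))
    (h : HasPW A (B ^ 2 - A * (4 * D)) a 1 Ω) : PtW A B D a Ω := by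
  obtain ⟨x, hx, hA, hB, x1, y1, z1, h0, h1⟩ := h
  have e : B ^ 2 - A * (4 * D) = B ^ 2 - 4 * A * D := by ring
  rw [e] at hB h1
  have haK : (a : K) ≠ 0 := by exact_mod_cast ha
  have h2 : (2 : K) ≠ 0 := two_ne_zero
  rw [aevalD] at h1
  refine ⟨x, hx, hB, (z1 - MvPolynomial.aeval x B * y1) / (2 * MvPolynomial.aeval x A), y1,
    a * x1 / 2, ?_, ?_⟩
  · by_contra hcon
    push Not at hcon
    obtain ⟨hu, hv, hw⟩ := hcon
    have hx1 : x1 = 0 := by
      have h3 : (a : K) * x1 = 0 := by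
        rcases div_eq_zero_iff.1 hw with h | h
        · exact h
        · exact absurd h h2
      exact (mul_eq_zero.1 h3).resolve_left haK
    have hz1 : z1 = 0 := by
      rcases div_eq_zero_iff.1 hu with h | h
      · rw [hv, mul_zero, sub_zero] at h; exact h
      · exact absurd h (mul_ne_zero h2 hA)
    rcases h0 with h | h | h
    · exact h hx1
    · exact h hv
    · exact h hz1
  · push_cast at h1
    set α := MvPolynomial.aeval x A with hα
    set β := MvPolynomial.aeval x B with hβ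
    set δ := MvPolynomial.aeval x D with hδ
    field_simp
    linear_combination (-1 : K) * h1

theorem ptw_cast {n : ℕ} {K : Type} [Field K] [CharZero K] (A B D : MvPolynomial (Fin (n + 1)) ℤ)
    (a : ℤ) (Ωq : Set (Fin (n + 1) → ℚ)) (Ω : Set (Fin (n + 1) → K))
    (hΩ : ∀ x ∈ Ωq, (fun i => ((x i : ℚ) : K)) ∈ Ω) (h : PtW A B D a Ωq) : PtW A B D a Ω := by
  obtain ⟨x, hx, hD, u, v, w, h0, h1⟩ := h
  refine ⟨_, hΩ x hx, ?_, u, v, w, ?_, ?_⟩
  · rw [aeval_cast]; exact_mod_cast hD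
  · rcases h0 with h | h | h
    · exact Or.inl (by exact_mod_cast h)
    · exact Or.inr (Or.inl (by exact_mod_cast h))
    · exact Or.inr (Or.inr (by exact_mod_cast h))
  · rw [aeval_cast, aeval_cast, aeval_cast]
    exact_mod_cast congrArg (fun t : ℚ => (t : K)) h1

theorem ptw_of_ptg {n : ℕ} (A B D : MvPolynomial (Fin (n + 1)) ℤ) (a : ℤ)
    (Ωr : Set (Fin (n + 1) → ℝ)) (Ω : ∀ p : Nat.Primes, Set (Fin (n + 1) → ℚ_[(p : ℕ)]))
    (h : PtG A B D a Ωr Ω) : PtW A B D a Ωr ∧ ∀ p : Nat.Primes, PtW A B D a (Ω p) :=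
  ⟨ptw_cast A B D a _ _ (fun x hx => hx.1) h, fun p => ptw_cast A B D a _ _ (fun x hx => hx.2 p) h⟩

theorem ptg_of_glob {n : ℕ} (A B D : MvPolynomial (Fin (n + 1)) ℤ) (a : ℤ) (ha : a ≠ 0)
    (Ωr : Set (Fin (n + 1) → ℝ)) (Ω : ∀ p : Nat.Primes, Set (Fin (n + 1) → ℚ_[(p : ℕ)]))
    (h : GlobW A (B ^ 2 - A * (4 * D)) a 1 Ωr Ω) : PtG A B D a Ωr Ω := by
  obtain ⟨x, hr, hp, hA, hB, hs⟩ := h
  exact ptw_of A B D a ha _ ⟨x, ⟨hr, hp⟩, hA, hB, hs⟩

theorem ptw_neg {n : ℕ} {K : Type} [Field K] (A B D : MvPolynomial (Fin (n + 1)) ℤ) (a : ℤ)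
    (Ω : Set (Fin (n + 1) → K)) (h : PtW A B D (-a) Ω) : PtW (-A) (-B) (-D) a Ω := by
  obtain ⟨x, hx, hD, u, v, w, h0, h1⟩ := h
  refine ⟨x, hx, ?_, u, v, w, h0, ?_⟩
  · rw [aevalD] at hD ⊢
    simp only [map_neg]
    intro hcon
    apply hD
    linear_combination hcon
  · rw [h1]
    simp only [map_neg]
    push_cast
    ring

theorem ptw_neg' {n : ℕ} {K : Type} [Field K] (A B D : MvPolynomial (Fin (n + 1)) ℤ) (a : ℤ)
    (Ω : Set (Fin (n + 1) → K)) (h : PtW (-A) (-B) (-D) a Ω) : PtW A B D (-a) Ω := by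
  have h1 : PtW (-A) (-B) (-D) (-(-a)) Ω := by rw [neg_neg]; exact h
  have h2 := ptw_neg (-A) (-B) (-D) (-a) Ω h1
  rwa [neg_neg, neg_neg, neg_neg] at h2

theorem ne_of_sq {n α δ : ℕ} (A B D : MvPolynomial (Fin (n + 1)) ℤ)
    (hB : B.IsHomogeneous (α + δ)) (hab : 1 ≤ α + δ)
    (hsq : Squarefree (MvPolynomial.map (Int.castRingHom ℚ) (B ^ 2 - 4 * A * D))) : A ≠ 0 := by
  rintro rfl
  have e : B ^ 2 - 4 * 0 * D = B * B := by ring
  rw [e, map_mul] at hsq
  have hu := hsq _ (dvd_refl _)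
  have hhom : (MvPolynomial.map (Int.castRingHom ℚ) B).IsHomogeneous (α + δ) := hB.map _
  have hdeg := hhom.totalDegree hu.ne_zero
  have h0 := (MvPolynomial.isUnit_iff_totalDegree_of_isReduced.1 hu).2
  omega

theorem density (hd : S_DONE) (he : S_ELSBG) (hx : S_XAPP) (n α δ : ℕ)
    (A B D : MvPolynomial (Fin (n + 1)) ℤ)
    (hA : A.IsHomogeneous (2 * α)) (hB : B.IsHomogeneous (α + δ)) (hD : D.IsHomogeneous (2 * δ))
    (hab : 1 ≤ α + δ)
    (hsq : Squarefree (MvPolynomial.map (Int.castRingHom ℚ) (B ^ 2 - 4 * A * D)))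
    (Ωr : Set (Fin (n + 1) → ℝ)) (Ω : ∀ p : Nat.Primes, Set (Fin (n + 1) → ℚ_[(p : ℕ)]))
    (hΩr : IsOpen Ωr) (hΩ : ∀ p, IsOpen (Ω p)) (hfin : {p : Nat.Primes | Ω p ≠ Set.univ}.Finite)
    (hne : Ωr.Nonempty) (hnep : ∀ p, (Ω p).Nonempty) :
    ∃ c : ℝ, 0 < c ∧ ∃ H0 : ℕ, ∀ H : ℕ, H0 ≤ H →
      c * (H : ℝ) ≤ ((loccG A B D Ωr Ω H).card : ℝ) := by
  classical
  have hAne : A ≠ 0 := ne_of_sq A B D hB hab hsq
  have hΔne : B ^ 2 - 4 * A * D ≠ 0 := by
    intro h0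
    rw [h0, map_zero] at hsq
    exact hsq.ne_zero rfl
  obtain ⟨x0, hx0r, hx0p, hx0⟩ := hx n (A * (B ^ 2 - 4 * A * D)) (mul_ne_zero hAne hΔne) Ωr Ω hΩr hΩ
    hfin hne hnep
  rw [map_mul] at hx0
  have hA0 : MvPolynomial.aeval x0 A ≠ 0 := left_ne_zero_of_mul hx0
  have hB0 : MvPolynomial.aeval x0 (B ^ 2 - 4 * A * D) ≠ 0 := right_ne_zero_of_mul hx0
  obtain ⟨a0, s, ha0, hs0, has⟩ := sqf_part _ hA0
  obtain ⟨z0, hz0⟩ := he n α δ A B (4 * D) hA hB (by
    have h4 : (4 : MvPolynomial (Fin (n + 1)) ℤ).IsHomogeneous 0 := by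
      have := MvPolynomial.isHomogeneous_C (Fin (n + 1)) (4 : ℤ)
      simpa using this
    have := h4.mul hD
    rwa [zero_add] at this) hab (by
    rw [show B ^ 2 - A * (4 * D) = B ^ 2 - 4 * A * D by ring]; exact hsq)
  set z : ℕ := 100 + z0 + ∑ p ∈ hfin.toFinset, (p : ℕ) with hz
  obtain ⟨c, hc, H0, hH0⟩ := hd z 5 a0 (by omega) (by norm_num) ha0
  refine ⟨c, hc, H0, fun H hH => (hH0 H hH).trans ?_⟩
  have hsub : (Icc (-(H : ℤ)) H).filter (fun x : ℤ => Squarefree x ∧ 0 < x * a0 ∧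
      ((primorial z ^ 5 : ℕ) : ℤ) ∣ x - a0) ⊆ loccG A B D Ωr Ω H := by
    intro x hx
    rw [mem_filter] at hx
    obtain ⟨hxI, hxs, hpos, hdvd⟩ := hx
    unfold loccG
    rw [mem_filter]
    refine ⟨hxI, hxs, ⟨_, hx0r, ?_, 1, 0, Real.sqrt ((x * a0 : ℤ) : ℝ) * s, Or.inl one_ne_zero, ?_⟩,
      fun p => ?_⟩
    · rw [aeval_cast]; exact_mod_cast hB0
    · rw [aeval_cast, aeval_cast, aeval_cast, has]
      rw [mul_pow, Real.sq_sqrt (by exact_mod_cast hpos.le)]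
      push_cast
      ring
    · by_cases hpz : (p : ℕ) ≤ z
      · have hpd : (p : ℕ) ∣ primorial z := by
          unfold primorial
          apply Finset.dvd_prod_of_mem
          simp only [mem_filter, mem_range]
          exact ⟨by omega, p.2⟩
        have h4 : (((p : ℕ) ^ 4 : ℕ) : ℤ) ∣ x - a0 := by
          refine dvd_trans ?_ hdvd
          exact_mod_cast (pow_dvd_pow _ (by norm_num : 4 ≤ 5)).trans (pow_dvd_pow_of_dvd hpd 5)
        haveI : Fact ((p : ℕ)).Prime := ⟨p.2⟩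
        obtain ⟨c, hc, hxc⟩ := Pool.Agent.W554.HB.near_sqf (p := (p : ℕ)) (a := x) (a1 := a0) ha0 (by
          rw [eq_comm, ZMod.intCast_eq_intCast_iff_dvd_sub]
          exact_mod_cast h4)
        refine ⟨_, hx0p p, ?_, 1, 0, (a0 : ℚ_[(p : ℕ)]) * c * s, Or.inl one_ne_zero, ?_⟩
        · rw [aeval_cast]; exact_mod_cast hB0
        · rw [aeval_cast, aeval_cast, aeval_cast, has]
          rw [hxc]
          push_cast
          ring
      · push Not at hpz
        have huniv : Ω p = Set.univ := by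
          by_contra hcon
          have h1 : p ∈ hfin.toFinset := by simpa using hcon
          have h2 : (p : ℕ) ≤ ∑ p ∈ hfin.toFinset, (p : ℕ) :=
            Finset.single_le_sum (f := fun p : Nat.Primes => (p : ℕ)) (fun _ _ => Nat.zero_le _) h1
          omega
        rw [huniv]
        haveI : Fact ((p : ℕ)).Prime := ⟨p.2⟩
        exact ptw_of A B D x hxs.ne_zero _ (hz0 (p : ℕ) (by omega) x hxs)
  exact_mod_cast Finset.card_le_card hsub

theorem ratiog_ (ht : S_T1G) (hd : S_DONE) (he : S_ELSBG) (hx : S_XAPP) (hr : S_PERTR)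
    (hp : S_PERTP) : S_RATIOG := by
  classical
  intro n α δ A B D hA hB hD hab hsq Ωr Ω hΩr hΩ hfin hne hnep
  obtain ⟨c, hc, H0, hH0⟩ := density hd he hx n α δ A B D hA hB hD hab hsq Ωr Ω hΩr hΩ hfin hne hnep
  refine ⟨⟨c, hc, H0, hH0⟩, ?_⟩
  have hAne : A ≠ 0 := ne_of_sq A B D hB hab hsq
  have h4 : (4 : MvPolynomial (Fin (n + 1)) ℤ).IsHomogeneous 0 := by
    have := MvPolynomial.isHomogeneous_C (Fin (n + 1)) (4 : ℤ)
    simpa using this
  have hD4 : (4 * D).IsHomogeneous (2 * δ) := by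
    have := h4.mul hD
    rwa [zero_add] at this
  have hD4' : (4 * (-D)).IsHomogeneous (2 * δ) := by
    have := h4.mul hD.neg
    rwa [zero_add] at this
  rw [Metric.tendsto_atTop]
  intro ε hε
  obtain ⟨N1, hN1⟩ := ht n α δ A B (4 * D) hA hB hD4 hab
    (by rw [show B ^ 2 - A * (4 * D) = B ^ 2 - 4 * A * D by ring]; exact hsq) Ωr Ω hΩr hΩ hfin
    (c * ε / 4) (by positivity)
  obtain ⟨N2, hN2⟩ := ht n α δ (-A) (-B) (4 * (-D)) hA.neg hB.neg hD4' hab
    (by rw [show (-B) ^ 2 - (-A) * (4 * (-D)) = B ^ 2 - 4 * A * D by ring]; exact hsq) Ωr Ω hΩr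
    hΩ hfin (c * ε / 4) (by positivity)
  refine ⟨H0 + N1 + N2 + 1, fun H hH => ?_⟩
  have h0 := hH0 H (by omega)
  have h1 := hN1 H (by omega)
  have h2 := hN2 H (by omega)
  have hHpos : (0 : ℝ) < H := by exact_mod_cast (by omega : 0 < H)
  have hsub : globG A B D Ωr Ω H ⊆ loccG A B D Ωr Ω H := by
    intro a ha
    unfold globG at ha
    unfold loccG
    rw [mem_filter] at ha ⊢
    exact ⟨ha.1, ha.2.1, ptw_of_ptg A B D a Ωr Ω ha.2.2⟩
  have hbad : (loccG A B D Ωr Ω H) \ (globG A B D Ωr Ω H) ⊆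
      ((Icc 1 H).filter (fun a : ℕ => Squarefree a ∧
        HasPW A (B ^ 2 - A * (4 * D)) (a : ℤ) 1 Ωr ∧
        (∀ p : Nat.Primes, HasPW A (B ^ 2 - A * (4 * D)) (a : ℤ) 1 (Ω p)) ∧
        ¬ GlobW A (B ^ 2 - A * (4 * D)) (a : ℤ) 1 Ωr Ω)).image (fun a : ℕ => (a : ℤ)) ∪
      ((Icc 1 H).filter (fun a : ℕ => Squarefree a ∧
        HasPW (-A) ((-B) ^ 2 - (-A) * (4 * (-D))) (a : ℤ) 1 Ωr ∧
        (∀ p : Nat.Primes, HasPW (-A) ((-B) ^ 2 - (-A) * (4 * (-D))) (a : ℤ) 1 (Ω p)) ∧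
        ¬ GlobW (-A) ((-B) ^ 2 - (-A) * (4 * (-D))) (a : ℤ) 1 Ωr Ω)).image
          (fun a : ℕ => -(a : ℤ)) := by
    intro a ha
    unfold globG loccG at ha
    rw [mem_sdiff, mem_filter, mem_filter, mem_Icc] at ha
    obtain ⟨⟨haI, has, har, hap⟩, hng⟩ := ha
    have hng' : ¬ PtG A B D a Ωr Ω := fun hg => hng ⟨haI, has, hg⟩
    have hane : a ≠ 0 := has.ne_zero
    rw [mem_union, mem_image, mem_image]
    rcases lt_or_gt_of_ne hane with hneg | hpos
    · right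
      refine ⟨a.natAbs, ?_, by omega⟩
      have hcast : a = -((a.natAbs : ℕ) : ℤ) := by omega
      have hnat : ((a.natAbs : ℕ) : ℤ) ≠ 0 := by omega
      rw [mem_filter, mem_Icc]
      refine ⟨by omega, Int.squarefree_natAbs.2 has, ?_, fun p => ?_, fun hg => ?_⟩
      · apply hr n (-A) (-B) (-D) (neg_ne_zero.2 hAne) _ hnat Ωr hΩr
        apply ptw_neg
        rw [← hcast]; exact har
      · haveI : Fact ((p : ℕ)).Prime := ⟨p.2⟩
        apply hp n (-A) (-B) (-D) (neg_ne_zero.2 hAne) _ hnat (p : ℕ) (Ω p) (hΩ p)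
        apply ptw_neg
        rw [← hcast]; exact hap p
      · apply hng'
        have h5 := ptg_of_glob (-A) (-B) (-D) _ hnat Ωr Ω hg
        have h6 := ptw_neg' A B D _ _ h5
        rw [← hcast] at h6
        exact h6
    · left
      refine ⟨a.natAbs, ?_, by omega⟩
      have hcast : ((a.natAbs : ℕ) : ℤ) = a := by omega
      rw [mem_filter, mem_Icc, hcast]
      refine ⟨by omega, Int.squarefree_natAbs.2 has, ?_, fun p => ?_, fun hg => ?_⟩
      · exact hr n A B D hAne a hane Ωr hΩr har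
      · haveI : Fact ((p : ℕ)).Prime := ⟨p.2⟩
        exact hp n A B D hAne a hane (p : ℕ) (Ω p) (hΩ p) (hap p)
      · exact hng' (ptg_of_glob A B D a hane Ωr Ω hg)
  have hcard : (((loccG A B D Ωr Ω H) \ (globG A B D Ωr Ω H)).card : ℝ) ≤
      c * ε / 4 * H + c * ε / 4 * H := by
    have h3 := (Finset.card_le_card hbad).trans (Finset.card_union_le _ _)
    have h4 := h3.trans (Nat.add_le_add Finset.card_image_le Finset.card_image_le)
    have h5 : (((loccG A B D Ωr Ω H) \ (globG A B D Ωr Ω H)).card : ℝ) ≤ _ := Nat.cast_le.2 h4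
    rw [Nat.cast_add] at h5
    exact h5.trans (add_le_add h1 h2)
  have hL : (0 : ℝ) < ((loccG A B D Ωr Ω H).card : ℝ) := lt_of_lt_of_le (by positivity) h0
  have hdiff : (((loccG A B D Ωr Ω H) \ (globG A B D Ωr Ω H)).card : ℝ) =
      ((loccG A B D Ωr Ω H).card : ℝ) - ((globG A B D Ωr Ω H).card : ℝ) := by
    rw [Finset.cast_card_sdiff hsub]
  rw [Real.dist_eq, abs_sub_comm, abs_of_nonneg]
  · have h6 : 1 - ((globG A B D Ωr Ω H).card : ℝ) / ((loccG A B D Ωr Ω H).card : ℝ) =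
      (((loccG A B D Ωr Ω H) \ (globG A B D Ωr Ω H)).card : ℝ) /
        ((loccG A B D Ωr Ω H).card : ℝ) := by
      rw [hdiff]; field_simp
    rw [h6, div_lt_iff₀ hL]
    have h7 : c * ε / 4 * H + c * ε / 4 * H < ε * (c * H) := by
      have : 0 < c * ε * H := by positivity
      nlinarith
    calc _ ≤ _ := hcard
      _ < ε * (c * H) := h7
      _ ≤ _ := mul_le_mul_of_nonneg_left h0 hε.le
  · rw [sub_nonneg, div_le_one hL]
    exact_mod_cast Finset.card_le_card hsub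

end Pool.Agent.W681.HB
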